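import Pool.Agent.H69.CS.Bad
import Pool.Agent.H69.CP.Bsh
import Pool.Agent.H69.CP.Rgh

/-!
[H69 CS SHI] Cyclic numbers in short intervals: `(x, x+y]` contains at least `c3 y / log x` of them if `y ≥ C3 x ^ (3/7) (log x)^2`.
-/

namespace Pool.Agent.H69.CS

open Finset Classical Filter

open Pool.Agent.H69.CP (rough_block Rough)

theorem cyc_short3 : ∃ c3 C3 : ℝ, 0 < c3 ∧ 1 ≤ C3 ∧ ∃ x0 : ℕ, 20 ≤ x0 ∧ ∀ x y : ℕ, x0 ≤ x →
    C3 * (x : ℝ) ^ (3 / 7 : ℝ) * Real.log x ^ 2 ≤ y → y ≤ x →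
    c3 * y / Real.log x ≤ (((Ioc x (x + y)).filter CY.IsCyclicNumber).card : ℝ) := by
  obtain ⟨a, c1, ha, ha1, hc1, h0, h03, hr⟩ := rough_block
  have t1 : Tendsto (fun x : ℕ => (x : ℝ)) atTop atTop := tendsto_natCast_atTop_atTop
  have e1 : ∀ᶠ x : ℕ in atTop, Real.log x ^ 3 ≤ (c1 / 155760) * (x : ℝ) ^ (3 * a / 7) := by
    have h := (isLittleO_log_rpow_rpow_atTop (3 : ℝ) (show (0 : ℝ) < 3 * a / 7 by positivity)).def
      (show (0 : ℝ) < c1 / 155760 by positivity)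
    filter_upwards [t1.eventually h, eventually_ge_atTop 3] with x hx hx3
    have hx3' : (3 : ℝ) ≤ x := by exact_mod_cast hx3
    have hl : 0 ≤ Real.log x := Real.log_nonneg (by linarith)
    rw [Real.norm_eq_abs, Real.norm_eq_abs, abs_of_nonneg (by positivity), abs_of_nonneg (by positivity)] at hx
    rw [← Real.rpow_natCast]
    exact_mod_cast hx
  have e3 : ∀ᶠ x : ℕ in atTop, Real.log x ^ 3 ≤ (c1 / 72) * (x : ℝ) ^ (2 / 7 : ℝ) := by
    have h := (isLittleO_log_rpow_rpow_atTop (3 : ℝ) (show (0 : ℝ) < 2 / 7 by norm_num)).def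
      (show (0 : ℝ) < c1 / 72 by positivity)
    filter_upwards [t1.eventually h, eventually_ge_atTop 3] with x hx hx3
    have hx3' : (3 : ℝ) ≤ x := by exact_mod_cast hx3
    have hl : 0 ≤ Real.log x := Real.log_nonneg (by linarith)
    rw [Real.norm_eq_abs, Real.norm_eq_abs, abs_of_nonneg (by positivity), abs_of_nonneg (by positivity)] at hx
    rw [← Real.rpow_natCast]
    exact_mod_cast hx
  have e2 : ∀ᶠ x : ℕ in atTop, (h0 : ℝ) ≤ (x : ℝ) ^ (3 / 7 : ℝ) :=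
    ((tendsto_rpow_atTop (show (0 : ℝ) < 3 / 7 by norm_num)).comp t1).eventually_ge_atTop _
  obtain ⟨x1, hx1⟩ := eventually_atTop.1 ((e1.and e2).and e3)
  refine ⟨c1 / 2, 1 + 1410 / c1, by positivity, ?_, max x1 100, by have := le_max_right x1 100; omega, ?_⟩
  · have : 0 < 1410 / c1 := by positivity
    linarith
  intro x y hx hy hyx
  obtain ⟨⟨g1, g2⟩, g3⟩ := hx1 x (le_trans (le_max_left _ _) hx)
  have hx100 : 100 ≤ x := le_trans (le_max_right _ _) hx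
  have hxR : (100 : ℝ) ≤ x := by exact_mod_cast hx100
  have hx0 : (0 : ℝ) < x := by linarith
  set L := Real.log x with hL
  have hL3 : 3 ≤ L := by
    rw [hL, Real.le_log_iff_exp_le hx0]
    have h1 : Real.exp 3 = Real.exp 1 ^ 3 := by rw [← Real.exp_nat_mul]; norm_num
    have h2 := Real.exp_one_lt_d9
    rw [h1]
    have h3 : Real.exp 1 ^ 3 ≤ 2.7182818286 ^ 3 := pow_le_pow_left₀ (Real.exp_pos _).le h2.le 3
    have h4 : (2.7182818286 : ℝ) ^ 3 ≤ 100 := by norm_num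
    linarith
  obtain ⟨Z, hZ⟩ : ∃ Z : ℝ, Z = (x : ℝ) ^ (3 / 7 : ℝ) := ⟨_, rfl⟩
  obtain ⟨V, hV⟩ : ∃ V : ℝ, V = (x : ℝ) ^ (2 / 7 : ℝ) := ⟨_, rfl⟩
  rw [← hZ] at g2 hy
  rw [← hV] at g3
  have hZ1 : 1 ≤ Z := by rw [hZ]; exact Real.one_le_rpow (by linarith) (by norm_num)
  have hV1 : 1 ≤ V := by rw [hV]; exact Real.one_le_rpow (by linarith) (by norm_num)
  have hVZ : V ≤ Z := by
    rw [hV, hZ]
    exact Real.rpow_le_rpow_of_exponent_le (by linarith) (by norm_num)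
  have hxV : (x : ℝ) / V ^ 2 = Z := by
    rw [hV, hZ, ← Real.rpow_natCast, ← Real.rpow_mul hx0.le]
    nth_rewrite 1 [← Real.rpow_one (x : ℝ)]
    rw [← Real.rpow_sub hx0]
    congr 1
    push_cast
    norm_num
  have hV2x : V ^ 2 ≤ x := by
    have h1 : V ^ 2 * Z = x := by rw [← hxV]; field_simp
    nlinarith [sq_nonneg V]
  have hXV : (x : ℝ) ^ (1 / 3 : ℝ) * V ^ (1 / 3 : ℝ) = Z := by
    rw [hV, hZ, ← Real.rpow_mul hx0.le, ← Real.rpow_add hx0]
    congr 1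
    norm_num
  have hy1 : Z ≤ y := by
    refine le_trans ?_ hy
    have h1 : 1 ≤ 1 + 1410 / c1 := by
      have : 0 < 1410 / c1 := by positivity
      linarith
    have h2 : 1 ≤ L ^ 2 := by nlinarith
    calc Z = 1 * Z * 1 := by ring
      _ ≤ (1 + 1410 / c1) * Z * L ^ 2 := by gcongr
  have hy2 : 1410 / c1 * Z * L ^ 2 ≤ y := by
    refine le_trans ?_ hy
    have : 0 ≤ Z * L ^ 2 := by positivity
    nlinarith
  have hyR : (1 : ℝ) ≤ y := hZ1.trans hy1
  have hy0 : (0 : ℝ) < y := by linarith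
  have hyh : h0 ≤ y := by exact_mod_cast g2.trans hy1
  have hlogy0 : 0 < Real.log y := by
    apply Real.log_pos
    have : (3 : ℝ) ≤ y := by exact_mod_cast h03.trans hyh
    linarith
  have hlogy : Real.log y ≤ L := Real.log_le_log hy0 (by exact_mod_cast hyx)
  -- rough numbers
  have hR := hr y hyh x
  have hR2 : c1 * y / L ≤ (((Ioc x (x + y)).filter fun m => Rough ((y : ℝ) ^ a) m).card : ℝ) := by
    refine le_trans ?_ hR
    gcongr
  -- bad numbers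
  have hw1 : (1 : ℝ) ≤ (y : ℝ) ^ a := Real.one_le_rpow hyR ha.le
  obtain ⟨P, hP⟩ : ∃ P : ℕ, P = ⌊V⌋₊ := ⟨_, rfl⟩
  have hP1 : 1 ≤ P := by rw [hP]; exact Nat.le_floor (by exact_mod_cast hV1)
  have hPV : (P : ℝ) ≤ V := by rw [hP]; exact Nat.floor_le (by linarith)
  have hP0 : (0 : ℝ) < P := by exact_mod_cast hP1
  have hVP : V ≤ 2 * P := by
    have h1 := Nat.lt_floor_add_one V
    rw [← hP] at h1
    have h2 : (1 : ℝ) ≤ P := by exact_mod_cast hP1
    linarith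
  have hPx : P ^ 2 ≤ x := by
    have h1 : (P : ℝ) ^ 2 ≤ x := (pow_le_pow_left₀ hP0.le hPV 2).trans hV2x
    exact_mod_cast h1
  obtain ⟨S, hS⟩ : ∃ S : ℕ, S = Nat.sqrt (2 * x) := ⟨_, rfl⟩
  have hS3 : 3 ≤ S := by
    rw [hS, Nat.le_sqrt]; omega
  have hB := bad_short3 x y P S ((y : ℝ) ^ a) hw1 (by omega) hyx hS hS3 hP1 hPx
  have hSx : S ≤ x := by
    have h1 : S * S ≤ 2 * x := by rw [hS]; exact Nat.sqrt_le _
    nlinarith
  have hlogS0 : 0 ≤ Real.log S := Real.log_nonneg (by exact_mod_cast (by omega : 1 ≤ S))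
  have hlogS : Real.log S ≤ L := by
    apply Real.log_le_log (by exact_mod_cast (by omega : 0 < S))
    exact_mod_cast hSx
  have hΛ : 1 + Real.log S ≤ 2 * L := by linarith
  have hl2x : 1 + Real.log (2 * x) ≤ 2 * L := by
    rw [Real.log_mul (by norm_num) hx0.ne']
    have := Real.log_two_lt_d9
    linarith
  have hl2x0 : 0 ≤ 1 + Real.log (2 * x) := by
    have := Real.log_nonneg (show (1 : ℝ) ≤ 2 * x by linarith)
    linarith
  have hya : (155760 / c1) * L ^ 3 ≤ (y : ℝ) ^ a := by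
    have h1 : (x : ℝ) ^ (3 * a / 7) = Z ^ a := by
      rw [hZ, ← Real.rpow_mul hx0.le]
      congr 1
      ring
    have h2 : Z ^ a ≤ (y : ℝ) ^ a := Real.rpow_le_rpow (by linarith) hy1 ha.le
    rw [h1] at g1
    have h3 : (155760 / c1) * L ^ 3 ≤ (155760 / c1) * (c1 / 155760 * Z ^ a) := by gcongr
    have h4 : (155760 / c1) * (c1 / 155760 * Z ^ a) = Z ^ a := by field_simp
    linarith
  have f1 : 3245 * (1 + Real.log S) ^ 2 * (2 * y / (y : ℝ) ^ a) ≤ c1 / 6 * (y / L) := by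
    have h1 : 3245 * (1 + Real.log S) ^ 2 * (2 * y / (y : ℝ) ^ a) ≤ 3245 * (2 * L) ^ 2 * (2 * y / (y : ℝ) ^ a) := by
      gcongr
    have h2 : 3245 * (2 * L) ^ 2 * (2 * y / (y : ℝ) ^ a) ≤
        3245 * (2 * L) ^ 2 * (2 * y / ((155760 / c1) * L ^ 3)) := by
      gcongr
    have h3 : 3245 * (2 * L) ^ 2 * (2 * y / ((155760 / c1) * L ^ 3)) = c1 / 6 * (y / L) := by
      field_simp
      norm_num
    linarith
  have hxP : 2 * (x : ℝ) / P ^ 2 ≤ 8 * Z := by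
    rw [div_le_iff₀ (by positivity)]
    have h1 : V ^ 2 * Z = x := by rw [← hxV]; field_simp
    have h2 : V ^ 2 ≤ (2 * P) ^ 2 := pow_le_pow_left₀ (by linarith) hVP 2
    have h3 : V ^ 2 * Z ≤ (2 * P) ^ 2 * Z := by gcongr
    nlinarith
  have hyP : (y : ℝ) / P ≤ 2 * (y / V) := by
    rw [← mul_div_assoc, div_le_div_iff₀ hP0 (by linarith)]
    nlinarith
  have hXP : (x : ℝ) ^ (1 / 3 : ℝ) * (P : ℝ) ^ (1 / 3 : ℝ) ≤ Z := by
    rw [← hXV]
    gcongr
  have hyV : 0 ≤ (y : ℝ) / V := by positivity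
  have f2 : 12 * (y / V) * L ^ 2 ≤ c1 / 6 * (y / L) := by
    have h1 : (72 / c1) * L ^ 3 ≤ V := by
      have h3 : (72 / c1) * L ^ 3 ≤ (72 / c1) * (c1 / 72 * V) := by gcongr
      have h4 : (72 / c1) * (c1 / 72 * V) = V := by field_simp
      linarith
    have h2 : 12 * (y / V) * L ^ 2 ≤ 12 * (y / ((72 / c1) * L ^ 3)) * L ^ 2 := by gcongr
    have h3 : 12 * (y / ((72 / c1) * L ^ 3)) * L ^ 2 = c1 / 6 * (y / L) := by
      field_simp
      norm_num
    linarith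
  have f3 : 235 * L * Z ≤ c1 / 6 * (y / L) := by
    have h1 : c1 / 6 * ((1410 / c1 * Z * L ^ 2) / L) ≤ c1 / 6 * (y / L) := by gcongr
    have h2 : c1 / 6 * ((1410 / c1 * Z * L ^ 2) / L) = 235 * L * Z := by
      field_simp
      norm_num
    linarith
  have hB2 : (((Ioc x (x + y)).filter fun m => ¬ CY.IsCyclicNumber m ∧ Rough ((y : ℝ) ^ a) m).card : ℝ) ≤
      c1 / 2 * (y / L) := by
    refine hB.trans ?_
    have k1 : 108 * (1 + Real.log S) * ((x : ℝ) ^ (1 / 3 : ℝ) * (P : ℝ) ^ (1 / 3 : ℝ)) ≤ 108 * (2 * L) * Z := by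
      gcongr
    have k2 : (2 * (x : ℝ) / P ^ 2) * (1 + Real.log (2 * x)) ≤ (8 * Z) * (2 * L) := by gcongr
    have k3 : (y / P) * (1 + Real.log (2 * x)) ^ 2 ≤ (2 * (y / V)) * (2 * L) ^ 2 := by gcongr
    have k4 : (y / P) * (1 + Real.log (2 * x)) ≤ (2 * (y / V)) * (2 * L) := by gcongr
    have k5 : (2 * (y / V)) * (2 * L) ≤ 4 * (y / V) * L ^ 2 := by
      have : L ≤ L ^ 2 := by nlinarith
      nlinarith
    have k6 : (P : ℝ) ≤ Z := hPV.trans hVZ
    have k7 : 9 * Z ≤ 3 * L * Z := by nlinarith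
    have e : 3 * (c1 / 6 * (y / L)) = c1 / 2 * (y / L) := by ring
    nlinarith
  have hsum : (((Ioc x (x + y)).filter fun m => Rough ((y : ℝ) ^ a) m).card : ℝ) ≤
      (((Ioc x (x + y)).filter CY.IsCyclicNumber).card : ℝ) +
      (((Ioc x (x + y)).filter fun m => ¬ CY.IsCyclicNumber m ∧ Rough ((y : ℝ) ^ a) m).card : ℝ) := by
    have h1 : (Ioc x (x + y)).filter (fun m => Rough ((y : ℝ) ^ a) m) ⊆
        (Ioc x (x + y)).filter CY.IsCyclicNumber ∪
        (Ioc x (x + y)).filter (fun m => ¬ CY.IsCyclicNumber m ∧ Rough ((y : ℝ) ^ a) m) := by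
      intro m hm
      rw [mem_filter] at hm
      rw [mem_union, mem_filter, mem_filter]
      by_cases hc : CY.IsCyclicNumber m
      · exact Or.inl ⟨hm.1, hc⟩
      · exact Or.inr ⟨hm.1, hc, hm.2⟩
    exact_mod_cast (card_le_card h1).trans (card_union_le _ _)
  have e : c1 / 2 * y / L = c1 * y / L - c1 / 2 * (y / L) := by ring
  rw [e]
  linarith

end Pool.Agent.H69.CS
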