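import Mathlib

/-!
[H69 CS LRG] Numbers `r p (1 + k p)` and multiples of `p ^ 2` with `p > P` in a short interval, sharper than
`Pool/Agent/H69/CR/Lrg.lean` (same proof): `r k p ^ 2 ≤ 2 x`, so `r k ≤ K = 2 x / P ^ 2`. For fixed `r, k` and `P < p < p'` with both
numbers in `(x, x + y]`: `y ≥ r (p' - p) (1 + k (p + p')) ≥ r k P (p' - p)`, so at most `1 + y / (r k P)` values of `p`. The number of
pairs `(r, k)` with `r k ≤ K` is at most `∑_{r ≤ K} K / r ≤ K (1 + log K)`, and `∑ 1 / (r k) ≤ (1 + log K) ^ 2`; `K ≤ 2 x`.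
-/

namespace Pool.Agent.H69.CS

open Finset Classical

private theorem lrg_cnt (f : ℕ → ℕ) (x y P T : ℕ) (hT : 1 ≤ T)
    (hf : ∀ p d : ℕ, P < p → f p + d * T ≤ f (p + d)) (A : Finset ℕ)
    (hA : ∀ p ∈ A, P < p ∧ x < f p ∧ f p ≤ x + y) : (A.card : ℝ) ≤ 1 + y / T := by
  have hP0 : (0 : ℝ) < T := by exact_mod_cast hT
  rcases A.eq_empty_or_nonempty with h | h
  · rw [h, Finset.card_empty, Nat.cast_zero]
    positivity
  · have h0 := hA _ (A.min'_mem h)
    have h1 := hA _ (A.max'_mem h)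
    obtain ⟨d, hd⟩ := Nat.exists_eq_add_of_le (A.min'_le _ (A.max'_mem h))
    have h2 := hf _ d h0.1
    rw [← hd] at h2
    have h3 : d * T ≤ y := by omega
    have h4 : A ⊆ Finset.Icc (A.min' h) (A.max' h) := fun a ha =>
      Finset.mem_Icc.mpr ⟨A.min'_le a ha, A.le_max' a ha⟩
    have h5 := Finset.card_le_card h4
    rw [Nat.card_Icc, hd] at h5
    have h6 : A.card ≤ 1 + d := by omega
    have h7 : (A.card : ℝ) ≤ 1 + d := by exact_mod_cast h6
    have h8 : (d : ℝ) ≤ y / T := by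
      rw [le_div_iff₀ hP0]
      exact_mod_cast h3
    linarith

private theorem lrg_har (x N : ℕ) (hx : 1 ≤ x) (hN : N ≤ 2 * x) :
    ∑ k ∈ Finset.Icc 1 N, (1 : ℝ) / k ≤ 1 + Real.log (2 * x) := by
  have h1 := harmonic_le_one_add_log N
  have h2 : ((harmonic N : ℚ) : ℝ) = ∑ k ∈ Finset.Icc 1 N, (1 : ℝ) / k := by
    rw [harmonic_eq_sum_Icc]
    push_cast
    exact Finset.sum_congr rfl fun k _ => (one_div _).symm
  rw [← h2]
  refine h1.trans ?_
  have hx' : (1 : ℝ) ≤ x := by exact_mod_cast hx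
  rcases Nat.eq_zero_or_pos N with h | h
  · rw [h, Nat.cast_zero, Real.log_zero]
    have : 0 ≤ Real.log (2 * (x : ℝ)) := Real.log_nonneg (by linarith)
    linarith
  · have h3 : Real.log N ≤ Real.log (2 * x) :=
      Real.log_le_log (by exact_mod_cast h) (by exact_mod_cast hN)
    linarith

theorem large_p2 (x y P : ℕ) (hP : 1 ≤ P) (hx : 1 ≤ x) (hyx : y ≤ x) :
    (((Ioc x (x + y)).filter fun m => ∃ p r k : ℕ, P < p ∧ 1 ≤ r ∧ 1 ≤ k ∧ m = r * p * (1 + k * p)).card : ℝ) ≤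
      (2 * (x : ℝ) / P ^ 2) * (1 + Real.log (2 * x)) + (y / P) * (1 + Real.log (2 * x)) ^ 2 := by
  have hP2 : 0 < P ^ 2 := by positivity
  have hP0 : (0 : ℝ) < P := by exact_mod_cast hP
  obtain ⟨K, hK⟩ : ∃ K, K = 2 * x / P ^ 2 := ⟨_, rfl⟩
  obtain ⟨L, hL⟩ : ∃ L : ℝ, L = 1 + Real.log (2 * x) := ⟨_, rfl⟩
  have hKx : K ≤ 2 * x := by
    rw [hK]
    exact Nat.div_le_self _ _
  have hsub : ((Ioc x (x + y)).filter fun m => ∃ p r k : ℕ, P < p ∧ 1 ≤ r ∧ 1 ≤ k ∧ m = r * p * (1 + k * p)) ⊆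
      (Finset.Icc 1 K).biUnion (fun r => (Finset.Icc 1 (K / r)).biUnion
        (fun k => ((Finset.range (x + y + 1)).filter
          (fun p => P < p ∧ x < r * p * (1 + k * p) ∧ r * p * (1 + k * p) ≤ x + y)).image
            (fun p => r * p * (1 + k * p)))) := by
    intro m hm
    rw [Finset.mem_filter, Finset.mem_Ioc] at hm
    obtain ⟨⟨hm1, hm2⟩, p, r, k, hp, hr, hk, rfl⟩ := hm
    have hpp : P ^ 2 ≤ p ^ 2 := Nat.pow_le_pow_left hp.le 2
    have e1 : r * k * p ^ 2 ≤ r * p * (1 + k * p) := by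
      have : r * p * (1 + k * p) = r * k * p ^ 2 + r * p := by ring
      omega
    have e2 : r * k * P ^ 2 ≤ r * k * p ^ 2 := Nat.mul_le_mul_left _ hpp
    have e3 : r * k ≤ K := by
      rw [hK]
      exact (Nat.le_div_iff_mul_le hP2).mpr (by omega)
    have e4 : r * 1 ≤ r * k := Nat.mul_le_mul_left r hk
    have hpx : p ≤ r * p * (1 + k * p) := by
      calc p = 1 * p * 1 := by ring
        _ ≤ r * p * (1 + k * p) := Nat.mul_le_mul (Nat.mul_le_mul_right p hr) (by omega)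
    rw [Finset.mem_biUnion]
    refine ⟨r, Finset.mem_Icc.mpr ⟨hr, by omega⟩, ?_⟩
    rw [Finset.mem_biUnion]
    refine ⟨k, Finset.mem_Icc.mpr ⟨hk, ?_⟩, ?_⟩
    · exact (Nat.le_div_iff_mul_le (by omega : 0 < r)).mpr (by rw [Nat.mul_comm]; exact e3)
    · exact Finset.mem_image.mpr ⟨p, Finset.mem_filter.mpr ⟨Finset.mem_range.mpr (by omega), hp, hm1, hm2⟩, rfl⟩
  have h1 : (((Ioc x (x + y)).filter fun m => ∃ p r k : ℕ, P < p ∧ 1 ≤ r ∧ 1 ≤ k ∧
      m = r * p * (1 + k * p)).card : ℝ) ≤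
      ∑ r ∈ Finset.Icc 1 K, ∑ k ∈ Finset.Icc 1 (K / r), (1 + (y : ℝ) / P * (1 / r * (1 / k))) := by
    refine le_trans (Nat.cast_le.mpr ((Finset.card_le_card hsub).trans Finset.card_biUnion_le)) ?_
    rw [Nat.cast_sum]
    refine Finset.sum_le_sum fun r hr => ?_
    refine le_trans (Nat.cast_le.mpr Finset.card_biUnion_le) ?_
    rw [Nat.cast_sum]
    refine Finset.sum_le_sum fun k hk => ?_
    rw [Finset.mem_Icc] at hr hk
    refine le_trans (Nat.cast_le.mpr Finset.card_image_le) ?_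
    have hrk : 1 ≤ r * k * P := Nat.mul_pos (Nat.mul_pos hr.1 hk.1) hP
    have h2 := lrg_cnt (fun p => r * p * (1 + k * p)) x y P (r * k * P) hrk (by
      intro p d hp
      have e4 : r * (p + d) * (1 + k * (p + d)) =
          r * p * (1 + k * p) + r * (d * (1 + k * (2 * p + d))) := by ring
      have e5 : d * (r * k * P) ≤ r * (d * (1 + k * (2 * p + d))) := by
        calc d * (r * k * P) = r * (d * (k * P)) := by ring
          _ ≤ r * (d * (1 + k * (2 * p + d))) := by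
            refine Nat.mul_le_mul_left r (Nat.mul_le_mul_left d ?_)
            have e6 : k * P ≤ k * (2 * p + d) := Nat.mul_le_mul_left _ (by omega)
            omega
      show r * p * (1 + k * p) + d * (r * k * P) ≤ r * (p + d) * (1 + k * (p + d))
      omega)
      ((Finset.range (x + y + 1)).filter
          (fun p => P < p ∧ x < r * p * (1 + k * p) ∧ r * p * (1 + k * p) ≤ x + y))
      (fun p hp => (Finset.mem_filter.mp hp).2)
    refine h2.trans (le_of_eq ?_)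
    have hr0 : (r : ℝ) ≠ 0 := by
      have : 0 < r := hr.1
      positivity
    have hk0 : (k : ℝ) ≠ 0 := by
      have : 0 < k := hk.1
      positivity
    push_cast
    field_simp
  refine h1.trans ?_
  rw [← hL]
  have hL0 : 0 ≤ L := by
    rw [hL]
    exact (Finset.sum_nonneg fun k _ => by positivity).trans (lrg_har x 0 hx (Nat.zero_le _))
  have hyP : (0 : ℝ) ≤ (y : ℝ) / P := by positivity
  have hH : ∑ r ∈ Finset.Icc 1 K, (1 : ℝ) / r ≤ L := by
    rw [hL]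
    exact lrg_har x K hx hKx
  have hin : ∀ r ∈ Finset.Icc 1 K, ∑ k ∈ Finset.Icc 1 (K / r), (1 + (y : ℝ) / P * (1 / r * (1 / k))) ≤
      ((K : ℝ) + (y : ℝ) / P * L) * (1 / r) := by
    intro r _
    rw [Finset.sum_add_distrib, Finset.sum_const, Nat.card_Icc, nsmul_eq_mul, mul_one, Nat.add_sub_cancel,
      ← Finset.mul_sum, ← Finset.mul_sum]
    have h3 : ((K / r : ℕ) : ℝ) ≤ (K : ℝ) / r := Nat.cast_div_le
    have h4 : ∑ k ∈ Finset.Icc 1 (K / r), (1 : ℝ) / k ≤ L := by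
      rw [hL]
      exact lrg_har x (K / r) hx ((Nat.div_le_self _ _).trans hKx)
    have h5 : (0 : ℝ) ≤ 1 / (r : ℝ) := by positivity
    have h6 : (y : ℝ) / P * (1 / r * ∑ k ∈ Finset.Icc 1 (K / r), (1 : ℝ) / k) ≤ (y : ℝ) / P * (1 / r * L) :=
      mul_le_mul_of_nonneg_left (mul_le_mul_of_nonneg_left h4 h5) hyP
    calc ((K / r : ℕ) : ℝ) + (y : ℝ) / P * (1 / r * ∑ k ∈ Finset.Icc 1 (K / r), (1 : ℝ) / k) ≤
        (K : ℝ) / r + (y : ℝ) / P * (1 / r * L) := add_le_add h3 h6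
      _ = ((K : ℝ) + (y : ℝ) / P * L) * (1 / r) := by ring
  refine (Finset.sum_le_sum hin).trans ?_
  rw [← Finset.mul_sum]
  have h2 : (K : ℝ) ≤ 2 * (x : ℝ) / P ^ 2 := by
    rw [hK]
    refine le_trans Nat.cast_div_le ?_
    push_cast
    exact le_rfl
  have hK0 : (0 : ℝ) ≤ K := Nat.cast_nonneg _
  calc ((K : ℝ) + (y : ℝ) / P * L) * ∑ r ∈ Finset.Icc 1 K, (1 : ℝ) / r ≤ ((K : ℝ) + (y : ℝ) / P * L) * L :=
        mul_le_mul_of_nonneg_left hH (by positivity)
    _ = K * L + (y : ℝ) / P * L ^ 2 := by ring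
    _ ≤ _ := by
      have := mul_le_mul_of_nonneg_right h2 hL0
      linarith

theorem large_sq2 (x y P : ℕ) (hP : 1 ≤ P) (hx : 1 ≤ x) (hyx : y ≤ x) :
    (((Ioc x (x + y)).filter fun m => ∃ p : ℕ, P < p ∧ p ^ 2 ∣ m).card : ℝ) ≤
      2 * (x : ℝ) / P ^ 2 + (y / P) * (1 + Real.log (2 * x)) := by
  have hP2 : 0 < P ^ 2 := by positivity
  have hP0 : (0 : ℝ) < P := by exact_mod_cast hP
  obtain ⟨K, hK⟩ : ∃ K, K = 2 * x / P ^ 2 := ⟨_, rfl⟩
  have hKx : K ≤ 2 * x := by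
    rw [hK]
    exact Nat.div_le_self _ _
  have hsub : ((Ioc x (x + y)).filter fun m => ∃ p : ℕ, P < p ∧ p ^ 2 ∣ m) ⊆
      (Finset.Icc 1 K).biUnion
        (fun c => ((Finset.range (x + y + 1)).filter
          (fun p => P < p ∧ x < p ^ 2 * c ∧ p ^ 2 * c ≤ x + y)).image (fun p => p ^ 2 * c)) := by
    intro m hm
    rw [Finset.mem_filter, Finset.mem_Ioc] at hm
    obtain ⟨⟨hm1, hm2⟩, p, hp, c, rfl⟩ := hm
    have hpp : P ^ 2 ≤ p ^ 2 := Nat.pow_le_pow_left hp.le 2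
    have hc : 1 ≤ c := by
      rcases Nat.eq_zero_or_pos c with h | h
      · rw [h, Nat.mul_zero] at hm1
        omega
      · exact h
    have e2 : c * P ^ 2 ≤ p ^ 2 * c := by
      calc c * P ^ 2 ≤ c * p ^ 2 := Nat.mul_le_mul_left c hpp
        _ = p ^ 2 * c := by ring
    have hpx : p ≤ p ^ 2 * c := by
      calc p = p * 1 * 1 := by ring
        _ ≤ p * p * c := Nat.mul_le_mul (Nat.mul_le_mul_left p (by omega)) hc
        _ = p ^ 2 * c := by ring
    rw [Finset.mem_biUnion]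
    refine ⟨c, Finset.mem_Icc.mpr ⟨hc, ?_⟩, ?_⟩
    · rw [hK]
      exact (Nat.le_div_iff_mul_le hP2).mpr (by omega)
    · exact Finset.mem_image.mpr ⟨p, Finset.mem_filter.mpr ⟨Finset.mem_range.mpr (by omega), hp, hm1, hm2⟩, rfl⟩
  have h1 : (((Ioc x (x + y)).filter fun m => ∃ p : ℕ, P < p ∧ p ^ 2 ∣ m).card : ℝ) ≤
      ∑ q ∈ Finset.Icc 1 K, (1 + (y : ℝ) / P * (1 / q)) := by
    refine le_trans (Nat.cast_le.mpr ((Finset.card_le_card hsub).trans Finset.card_biUnion_le)) ?_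
    rw [Nat.cast_sum]
    refine Finset.sum_le_sum fun q hq => ?_
    rw [Finset.mem_Icc] at hq
    refine le_trans (Nat.cast_le.mpr Finset.card_image_le) ?_
    have h2 := lrg_cnt (fun p => p ^ 2 * q) x y P (q * P) (Nat.mul_pos hq.1 hP) (by
      intro p d hp
      have e4 : (p + d) ^ 2 * q = p ^ 2 * q + d * (2 * p + d) * q := by ring
      have e5 : d * (q * P) ≤ d * (2 * p + d) * q := by
        calc d * (q * P) = d * P * q := by ring
          _ ≤ d * (2 * p + d) * q := Nat.mul_le_mul_right q (Nat.mul_le_mul_left d (by omega))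
      show p ^ 2 * q + d * (q * P) ≤ (p + d) ^ 2 * q
      omega)
      ((Finset.range (x + y + 1)).filter (fun p => P < p ∧ x < p ^ 2 * q ∧ p ^ 2 * q ≤ x + y))
      (fun p hp => (Finset.mem_filter.mp hp).2)
    refine h2.trans (le_of_eq ?_)
    have hq0 : (q : ℝ) ≠ 0 := by
      have : 0 < q := hq.1
      positivity
    push_cast
    field_simp
  refine h1.trans ?_
  rw [Finset.sum_add_distrib, Finset.sum_const, Nat.card_Icc, nsmul_eq_mul, Nat.add_sub_cancel, mul_one,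
    ← Finset.mul_sum]
  have h2 : (K : ℝ) ≤ 2 * (x : ℝ) / P ^ 2 := by
    rw [hK]
    refine le_trans Nat.cast_div_le ?_
    push_cast
    exact le_rfl
  have h4 : (0 : ℝ) ≤ (y : ℝ) / P := by positivity
  exact add_le_add h2 (mul_le_mul_of_nonneg_left (lrg_har x K hx hKx) h4)

end Pool.Agent.H69.CS
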