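import Pool.Agent.H69.CR.Mid
import Pool.Agent.H69.CS.Two
import Pool.Agent.H69.CS.Lrg

/-!
[H69 CS MID] Numbers `r p (1 + k p)` in a short interval, for one `p`: at most `18 Λ (x / p^2)^(1/3) + 1622 Λ^2 y / p^2`,
`Λ = 1 + log √(2x)`.
-/

namespace Pool.Agent.H69.CS

open Finset Classical

open Pool.Agent.H69.CP (class_card dvd_card harm Rough)
open Pool.Agent.H69.CR (E1 E2 A_bounds)

theorem dyad (T : Finset ℕ) (R0 N : ℕ) (hR0 : 1 ≤ R0) (b : ℝ) (hb0 : 0 ≤ b)
    (hT : ∀ n ∈ T, R0 < n ∧ n ≤ N)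
    (hb : ∀ R, R0 ≤ R → R ≤ N → ((T.filter fun n => R < n ∧ n ≤ 2 * R).card : ℝ) ≤ b) :
    (T.card : ℝ) ≤ ((Nat.log 2 N + 1 : ℕ) : ℝ) * b := by
  have hsub : T ⊆ (range (Nat.log 2 N + 1)).biUnion fun j =>
      T.filter fun n => R0 * 2 ^ j < n ∧ n ≤ 2 * (R0 * 2 ^ j) := by
    intro n hn
    obtain ⟨h1, h2⟩ := hT n hn
    have h3 : 1 ≤ (n - 1) / R0 := by
      rw [Nat.le_div_iff_mul_le (by omega)]
      omega
    rw [mem_biUnion]
    refine ⟨Nat.log 2 ((n - 1) / R0), ?_, ?_⟩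
    · rw [mem_range, Nat.lt_succ_iff]
      apply Nat.log_mono_right
      exact (Nat.div_le_self _ _).trans (by omega)
    · rw [mem_filter]
      have h4 := Nat.pow_log_le_self 2 (x := (n - 1) / R0) (by omega)
      have h5 := Nat.lt_pow_succ_log_self (b := 2) (by norm_num) ((n - 1) / R0)
      refine ⟨hn, ?_, ?_⟩
      · have h6 := Nat.mul_le_of_le_div _ _ _ h4
        rw [mul_comm] at h6
        omega
      · have h6 := (Nat.div_lt_iff_lt_mul (by omega)).1 h5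
        rw [pow_succ] at h6
        have h7 : 2 * (R0 * 2 ^ Nat.log 2 ((n - 1) / R0)) = 2 ^ Nat.log 2 ((n - 1) / R0) * 2 * R0 := by ring
        omega
  calc (T.card : ℝ) ≤ ((∑ j ∈ range (Nat.log 2 N + 1),
        (T.filter fun n => R0 * 2 ^ j < n ∧ n ≤ 2 * (R0 * 2 ^ j)).card : ℕ) : ℝ) := by
        exact_mod_cast (card_le_card hsub).trans card_biUnion_le
    _ ≤ ∑ j ∈ range (Nat.log 2 N + 1), b := by
        push_cast
        refine sum_le_sum fun j _ => ?_
        rcases le_or_gt (R0 * 2 ^ j) N with h | h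
        · exact hb _ (Nat.le_mul_of_pos_right R0 (by positivity)) h
        · have : (T.filter fun n => R0 * 2 ^ j < n ∧ n ≤ 2 * (R0 * 2 ^ j)) = ∅ := by
            rw [filter_eq_empty_iff]
            intro n hn hcon
            have := (hT n hn).2
            omega
          rw [this, card_empty, Nat.cast_zero]
          exact hb0
    _ = ((Nat.log 2 N + 1 : ℕ) : ℝ) * b := by
        rw [sum_const, card_range, nsmul_eq_mul]

/-- small indices -/
noncomputable def Sm (N R0 : ℕ) : Finset ℕ := (Icc 1 N).filter fun r => r ≤ R0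

theorem gen_card (y S p R0 : ℕ) (hp : 0 < p) (hS : 1 ≤ S) (f : ℕ → Finset ℕ) (E T : Finset ℕ) (b : ℝ)
    (hf : ∀ r, 1 ≤ r → ((f r).card : ℝ) ≤ 1 / (r : ℝ) * (y / (p : ℝ) ^ 2) + 1)
    (hR0 : (y : ℝ) / (p : ℝ) ^ 2 ≤ R0) (hT : (T.card : ℝ) ≤ b) (hT2 : ∀ r ∈ T, R0 < r)
    (hE : E ⊆ (Sm (S / p) R0).biUnion f ∪ T.biUnion f) :
    (E.card : ℝ) ≤ (1 + Real.log S) * (y / (p : ℝ) ^ 2) + R0 + b := by
  have hpR : (0 : ℝ) < p := by exact_mod_cast hp
  have hSR : (1 : ℝ) ≤ S := by exact_mod_cast hS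
  have hlogS : 0 ≤ Real.log S := Real.log_nonneg hSR
  have hSm : ((Sm (S / p) R0).card : ℝ) ≤ R0 := by
    have hsub : Sm (S / p) R0 ⊆ Icc 1 R0 := by
      intro r hr
      unfold Sm at hr
      rw [mem_filter, mem_Icc] at hr
      rw [mem_Icc]
      exact ⟨hr.1.1, hr.2⟩
    have h1 := card_le_card hsub
    rw [Nat.card_Icc, Nat.add_sub_cancel] at h1
    exact_mod_cast h1
  have hsmall : (((Sm (S / p) R0).biUnion f).card : ℝ) ≤ (1 + Real.log S) * (y / (p : ℝ) ^ 2) + R0 := by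
    calc (((Sm (S / p) R0).biUnion f).card : ℝ) ≤ ((∑ r ∈ Sm (S / p) R0, (f r).card : ℕ) : ℝ) := by
          exact_mod_cast card_biUnion_le
      _ ≤ ∑ r ∈ Sm (S / p) R0, (1 / (r : ℝ) * (y / (p : ℝ) ^ 2) + 1) := by
          push_cast
          refine sum_le_sum fun r hr => hf r ?_
          unfold Sm at hr
          rw [mem_filter, mem_Icc] at hr
          exact hr.1.1
      _ = (∑ r ∈ Sm (S / p) R0, 1 / (r : ℝ)) * (y / (p : ℝ) ^ 2) + ((Sm (S / p) R0).card : ℝ) := by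
          rw [sum_add_distrib, ← sum_mul]
          simp
      _ ≤ (1 + Real.log S) * (y / (p : ℝ) ^ 2) + R0 := by
          have h1 : ∑ r ∈ Sm (S / p) R0, 1 / (r : ℝ) ≤ 1 + Real.log S := by
            refine le_trans ?_ (harm S)
            apply sum_le_sum_of_subset_of_nonneg
            · intro r hr
              unfold Sm at hr
              rw [mem_filter, mem_Icc] at hr
              rw [mem_Icc]
              exact ⟨hr.1.1, hr.1.2.trans (Nat.div_le_self _ _)⟩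
            · intro r _ _
              positivity
          gcongr
  have hbig : ((T.biUnion f).card : ℝ) ≤ b := by
    refine le_trans ?_ hT
    have h1 : (T.biUnion f).card ≤ T.card * 1 := by
      apply card_biUnion_le_card_mul
      intro r hr
      have h2 := hT2 r hr
      have h2R : (R0 : ℝ) < r := by exact_mod_cast h2
      have hr1 : 1 ≤ r := by omega
      have hr0 : (0 : ℝ) < r := by exact_mod_cast hr1
      have h3 := hf r hr1
      have h4 : 1 / (r : ℝ) * (y / (p : ℝ) ^ 2) < 1 := by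
        rw [one_div, inv_mul_lt_iff₀ hr0, mul_one]
        exact lt_of_le_of_lt hR0 h2R
      have h6 : ((f r).card : ℝ) < 2 := by linarith
      have h7 : (f r).card < 2 := by exact_mod_cast h6
      omega
    rw [mul_one] at h1
    exact_mod_cast h1
  have h := (card_le_card hE).trans (card_union_le _ _)
  have h' : (E.card : ℝ) ≤ (((Sm (S / p) R0).biUnion f).card : ℝ) + ((T.biUnion f).card : ℝ) := by exact_mod_cast h
  linarith

section

variable (x y S p R : ℕ) (a : ℝ) (hS : S = Nat.sqrt (2 * x)) (hS3 : 3 ≤ S) (hp : 0 < p)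
  (ha : 1 ≤ a) (haA : a ^ 3 = x / (p : ℝ) ^ 2)

/-- the indices `r` -/
noncomputable def U1 (x y N p : ℕ) : Finset ℕ := (Icc 1 N).filter fun r : ℕ =>
      ∃ k : ℕ, x < r * p * (1 + k * p) ∧ r * p * (1 + k * p) ≤ x + y

/-- the indices `k` -/
noncomputable def U2 (x y N p : ℕ) : Finset ℕ := (Icc 1 N).filter fun k : ℕ =>
      ∃ r : ℕ, x < r * p * (1 + k * p) ∧ r * p * (1 + k * p) ≤ x + y

include hS hS3 hp ha haA in
theorem opt (u s : ℝ) (hs : 0 ≤ s) (hs1 : s ≤ 1) (haR : a ≤ R) (hBR : (y : ℝ) / (p : ℝ) ^ 2 ≤ R) (hRS : R ≤ S / p)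
    (T : Finset ℕ) (hT : ∀ n ∈ T, R < n ∧ n ≤ 2 * R ∧
      ∃ v : ℤ, x / (p : ℝ) ^ 2 / (n + s) - u ≤ v ∧ (v : ℝ) ≤ x / (p : ℝ) ^ 2 / (n + s) - u + y / (p : ℝ) ^ 2 / R) :
    (T.card : ℝ) ≤ 8 * a + 810 * (y / (p : ℝ) ^ 2) * (1 + Real.log S) := by
  have hpR : (0 : ℝ) < p := by exact_mod_cast hp
  have ha0 : 0 < a := by linarith
  have hR1 : (1 : ℝ) ≤ R := ha.trans haR
  have hR0 : (0 : ℝ) < R := by linarith
  have hRN : 1 ≤ R := by exact_mod_cast hR1
  have hRa : 1 ≤ (R : ℝ) / a := by rwa [one_le_div ha0]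
  set H := ⌊(R : ℝ) / a⌋₊ with hH
  have hH1 : 1 ≤ H := Nat.le_floor (by exact_mod_cast hRa)
  have hHle : (H : ℝ) ≤ R / a := Nat.floor_le (by positivity)
  have hHge : (R : ℝ) / a ≤ 2 * H := by
    have h1 := Nat.lt_floor_add_one ((R : ℝ) / a)
    rw [← hH] at h1
    have h2 : (1 : ℝ) ≤ H := by exact_mod_cast hH1
    linarith
  have hHR : H ≤ R := by
    have h1 : (R : ℝ) / a ≤ R := div_le_self hR0.le ha
    exact_mod_cast hHle.trans h1
  have hH0 : (0 : ℝ) < H := by exact_mod_cast hH1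
  have hRSR : (R : ℝ) * p ≤ S := by
    have h1 : R * p ≤ S := by
      have := Nat.mul_le_of_le_div _ _ _ hRS
      exact this
    exact_mod_cast h1
  have hSle : (S : ℝ) ^ 2 ≤ 2 * x := by
    have h1 : S * S ≤ 2 * x := by rw [hS]; exact Nat.sqrt_le _
    have h3 : (S : ℝ) * S ≤ 2 * x := by exact_mod_cast h1
    rw [sq]; exact h3
  have hA2 : (R : ℝ) ^ 2 ≤ 2 * (x / (p : ℝ) ^ 2) := by
    rw [← mul_div_assoc, le_div_iff₀ (by positivity), ← mul_pow]
    exact le_trans (pow_le_pow_left₀ (by positivity) hRSR 2) hSle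
  have key := two_point2 (x / (p : ℝ) ^ 2) (y / (p : ℝ) ^ 2) u s R H hH1 hHR hs hs1 (by positivity) hBR hA2 T hT
  have b1 : (R : ℝ) / H ≤ 2 * a := by
    rw [div_le_iff₀ hH0]
    rw [div_le_iff₀ ha0] at hHge
    linarith
  have b2 : 5 * (x / (p : ℝ) ^ 2) * (H : ℝ) ^ 2 / (R : ℝ) ^ 2 ≤ 5 * a := by
    rw [div_le_iff₀ (by positivity), ← haA]
    have h1 : (H : ℝ) * a ≤ R := by rwa [le_div_iff₀ ha0] at hHle
    have h2 : ((H : ℝ) * a) ^ 2 ≤ (R : ℝ) ^ 2 := pow_le_pow_left₀ (by positivity) h1 2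
    calc 5 * a ^ 3 * (H : ℝ) ^ 2 = 5 * a * ((H : ℝ) * a) ^ 2 := by ring
      _ ≤ 5 * a * (R : ℝ) ^ 2 := by gcongr
  have b3 : Real.log H ≤ Real.log S := by
    apply Real.log_le_log hH0
    have h1 : R ≤ S := hRS.trans (Nat.div_le_self _ _)
    exact_mod_cast hHR.trans h1
  have b4 : 810 * (y / (p : ℝ) ^ 2) * (1 + Real.log H) ≤ 810 * (y / (p : ℝ) ^ 2) * (1 + Real.log S) := by
    gcongr
  linarith

include hS hS3 hp ha haA in
theorem U1_block (haR : a ≤ R) (hBR : (y : ℝ) / (p : ℝ) ^ 2 ≤ R) (hRS : R ≤ S / p) :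
    (((U1 x y (S / p) p).filter fun n => R < n ∧ n ≤ 2 * R).card : ℝ) ≤
      8 * a + 810 * (y / (p : ℝ) ^ 2) * (1 + Real.log S) := by
  have hpR : (0 : ℝ) < p := by exact_mod_cast hp
  have hR0 : (0 : ℝ) < R := by linarith
  apply opt x y S p R a hS hS3 hp ha haA (1 / p) 0 le_rfl zero_le_one haR hBR hRS
  intro r hr
  unfold U1 at hr
  rw [mem_filter, mem_filter, mem_Icc] at hr
  obtain ⟨⟨⟨hr1, hr2⟩, k, hk1, hk2⟩, hr3, hr4⟩ := hr
  have hr0 : (0 : ℝ) < r := by exact_mod_cast hr1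
  have hk1' : (x : ℝ) ≤ r * p * (1 + k * p) := by exact_mod_cast hk1.le
  have hk2' : (r : ℝ) * p * (1 + k * p) ≤ x + y := by exact_mod_cast hk2
  refine ⟨hr3, hr4, (k : ℤ), ?_, ?_⟩
  · have e1 : (x : ℝ) / (p : ℝ) ^ 2 / (r + 0) - 1 / p = ((x : ℝ) - r * p) / (r * p ^ 2) := by
      rw [add_zero]; field_simp
    rw [e1, div_le_iff₀ (by positivity)]
    push_cast
    nlinarith
  · have e1 : (x : ℝ) / (p : ℝ) ^ 2 / (r + 0) - 1 / p + y / (p : ℝ) ^ 2 / r =
        ((x : ℝ) + y - r * p) / (r * p ^ 2) := by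
      rw [add_zero]; field_simp; ring
    have e2 : (k : ℝ) ≤ (x : ℝ) / (p : ℝ) ^ 2 / (r + 0) - 1 / p + y / (p : ℝ) ^ 2 / r := by
      rw [e1, le_div_iff₀ (by positivity)]
      nlinarith
    have e3 : (y : ℝ) / (p : ℝ) ^ 2 / r ≤ y / (p : ℝ) ^ 2 / R := by
      apply div_le_div_of_nonneg_left (by positivity) hR0
      exact_mod_cast hr3.le
    push_cast
    linarith

include hS hS3 hp ha haA in
theorem U2_block (haR : a ≤ R) (hBR : (y : ℝ) / (p : ℝ) ^ 2 ≤ R) (hRS : R ≤ S / p) :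
    (((U2 x y (S / p) p).filter fun n => R < n ∧ n ≤ 2 * R).card : ℝ) ≤
      8 * a + 810 * (y / (p : ℝ) ^ 2) * (1 + Real.log S) := by
  have hpR : (0 : ℝ) < p := by exact_mod_cast hp
  have hp1 : (1 : ℝ) ≤ p := by exact_mod_cast hp
  have hR0 : (0 : ℝ) < R := by linarith
  apply opt x y S p R a hS hS3 hp ha haA 0 (1 / p) (by positivity)
    (by rw [div_le_one hpR]; exact hp1) haR hBR hRS
  intro k hk
  unfold U2 at hk
  rw [mem_filter, mem_filter, mem_Icc] at hk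
  obtain ⟨⟨⟨hr1, hr2⟩, r, hk1, hk2⟩, hr3, hr4⟩ := hk
  have hk0 : (0 : ℝ) < k := by exact_mod_cast hr1
  have hk1' : (x : ℝ) ≤ r * p * (1 + k * p) := by exact_mod_cast hk1.le
  have hk2' : (r : ℝ) * p * (1 + k * p) ≤ x + y := by exact_mod_cast hk2
  refine ⟨hr3, hr4, (r : ℤ), ?_, ?_⟩
  · have e1 : (x : ℝ) / (p : ℝ) ^ 2 / (k + 1 / p) - 0 = (x : ℝ) / (p * (1 + k * p)) := by
      field_simp; ring
    rw [e1, div_le_iff₀ (by positivity)]
    push_cast
    linarith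
  · have e1 : (x : ℝ) / (p : ℝ) ^ 2 / (k + 1 / p) - 0 = (x : ℝ) / (p * (1 + k * p)) := by
      field_simp; ring
    have e2 : (r : ℝ) ≤ ((x : ℝ) + y) / (p * (1 + k * p)) := by
      rw [le_div_iff₀ (by positivity)]
      linarith
    have e3 : (y : ℝ) / (p * (1 + k * p)) ≤ y / (p : ℝ) ^ 2 / k := by
      rw [div_div]
      apply div_le_div_of_nonneg_left (by positivity) (by positivity)
      nlinarith
    have e4 : (y : ℝ) / (p : ℝ) ^ 2 / k ≤ y / (p : ℝ) ^ 2 / R := by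
      apply div_le_div_of_nonneg_left (by positivity) hR0
      exact_mod_cast hr3.le
    rw [e1]
    push_cast
    rw [add_div] at e2
    linarith

include hS3 ha in
theorem fin_bound (B : ℝ) (hB : 0 ≤ B) (N R0 : ℕ) (hN : N ≤ S) (hR0 : (R0 : ℝ) ≤ a + B + 1) :
    (1 + Real.log S) * B + R0 + ((Nat.log 2 N + 1 : ℕ) : ℝ) * (8 * a + 810 * B * (1 + Real.log S)) ≤
      18 * (1 + Real.log S) * a + 1622 * (1 + Real.log S) ^ 2 * B := by
  have hSR : (3 : ℝ) ≤ S := by exact_mod_cast hS3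
  have hlogS : 0 ≤ Real.log S := Real.log_nonneg (by linarith)
  have h1 : ((Nat.log 2 N + 1 : ℕ) : ℝ) ≤ 2 * (1 + Real.log S) := by
    have h2 : ((Nat.log 2 N : ℕ) : ℝ) ≤ (Nat.log 2 S : ℕ) := by exact_mod_cast Nat.log_mono_right hN
    have h3 := Real.natLog_le_logb S 2
    have h4 : Real.logb (2 : ℕ) S ≤ 2 * Real.log S := by
      unfold Real.logb
      have h5 := Real.log_two_gt_d9
      push_cast
      rw [div_le_iff₀ (by linarith)]
      nlinarith
    push_cast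
    push_cast at h4 h3
    linarith
  set Λ := 1 + Real.log S with hΛ
  have hΛ1 : 1 ≤ Λ := by linarith
  have h2 : ((Nat.log 2 N + 1 : ℕ) : ℝ) * (8 * a + 810 * B * Λ) ≤ (2 * Λ) * (8 * a + 810 * B * Λ) := by
    gcongr
  have h3 : Λ * B ≤ Λ ^ 2 * B := by
    have : Λ ≤ Λ ^ 2 := by nlinarith
    gcongr
  have h4 : B ≤ Λ ^ 2 * B := by
    have : 1 ≤ Λ ^ 2 := by nlinarith
    nlinarith
  have h5 : a ≤ Λ * a := by nlinarith
  nlinarith

include hS hS3 hp ha haA in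
theorem E1_card : ((E1 x y S p).card : ℝ) ≤
    18 * (1 + Real.log S) * a + 1622 * (1 + Real.log S) ^ 2 * (y / (p : ℝ) ^ 2) := by
  have hpR : (0 : ℝ) < p := by exact_mod_cast hp
  have hB : 0 ≤ (y : ℝ) / (p : ℝ) ^ 2 := by positivity
  obtain ⟨R0, hR0⟩ : ∃ R0 : ℕ, R0 = ⌈a + y / (p : ℝ) ^ 2⌉₊ := ⟨_, rfl⟩
  have hR0a : a + y / (p : ℝ) ^ 2 ≤ R0 := by rw [hR0]; exact Nat.le_ceil _
  have hR0b : (R0 : ℝ) ≤ a + y / (p : ℝ) ^ 2 + 1 := by
    rw [hR0]; exact (Nat.ceil_lt_add_one (by positivity)).le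
  have hR01 : 1 ≤ R0 := by
    have : (1 : ℝ) ≤ R0 := by linarith
    exact_mod_cast this
  have hSR : (3 : ℝ) ≤ S := by exact_mod_cast hS3
  have hlogS : 0 ≤ Real.log S := Real.log_nonneg (by linarith)
  have hT : (((U1 x y (S / p) p).filter fun r => R0 < r).card : ℝ) ≤
      ((Nat.log 2 (S / p) + 1 : ℕ) : ℝ) * (8 * a + 810 * (y / (p : ℝ) ^ 2) * (1 + Real.log S)) := by
    apply dyad _ R0 (S / p) hR01 _ (by positivity)
    · intro n hn
      unfold U1 at hn
      rw [mem_filter, mem_filter, mem_Icc] at hn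
      exact ⟨hn.2, hn.1.1.2⟩
    · intro R hR1 hR2
      have hRR : (R0 : ℝ) ≤ R := by exact_mod_cast hR1
      refine le_trans ?_ (U1_block x y S p R a hS hS3 hp ha haA (by linarith) (by linarith) hR2)
      have : (((U1 x y (S / p) p).filter fun r => R0 < r).filter fun n => R < n ∧ n ≤ 2 * R) ⊆
          (U1 x y (S / p) p).filter fun n => R < n ∧ n ≤ 2 * R := by
        intro n hn
        rw [mem_filter, mem_filter] at hn
        rw [mem_filter]
        exact ⟨hn.1.1, hn.2⟩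
      exact_mod_cast card_le_card this
  refine le_trans (gen_card y S p R0 hp (by omega)
    (fun r => (Ioc x (x + y)).filter fun m => m % (r * p ^ 2) = (r * p) % (r * p ^ 2)) (E1 x y S p) _ _ ?_
    (by linarith) hT ?_ ?_) (fin_bound S a hS3 ha _ hB (S / p) R0 (Nat.div_le_self _ _) hR0b)
  · intro r hr1
    have := class_card x y (r * p ^ 2) (r * p) (by positivity)
    refine this.trans (le_of_eq ?_)
    push_cast
    have : (r : ℝ) ≠ 0 := by positivity
    have : (p : ℝ) ≠ 0 := by positivity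
    field_simp
  · intro r hr
    rw [mem_filter] at hr
    exact hr.2
  · intro m hm
    unfold E1 at hm
    rw [mem_filter, mem_Ioc] at hm
    obtain ⟨⟨hm1, hm2⟩, r, k, hr1, hk1, hrS, hmr⟩ := hm
    have hmem : m ∈ (Ioc x (x + y)).filter fun m => m % (r * p ^ 2) = (r * p) % (r * p ^ 2) := by
      rw [mem_filter, mem_Ioc]
      refine ⟨⟨hm1, hm2⟩, ?_⟩
      have : m = r * p + r * p ^ 2 * k := by rw [hmr]; ring
      rw [this, Nat.add_mul_mod_self_left]
    rw [mem_union, mem_biUnion, mem_biUnion]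
    rcases le_or_gt r R0 with h | h
    · left
      exact ⟨r, by unfold Sm; rw [mem_filter, mem_Icc]; exact ⟨⟨hr1, hrS⟩, h⟩, hmem⟩
    · right
      refine ⟨r, ?_, hmem⟩
      unfold U1
      rw [mem_filter, mem_filter, mem_Icc]
      refine ⟨⟨⟨hr1, hrS⟩, k, ?_, ?_⟩, h⟩
      · rw [← hmr]; exact hm1
      · rw [← hmr]; exact hm2

include hS hS3 hp ha haA in
theorem E2_card : ((E2 x y S p).card : ℝ) ≤
    18 * (1 + Real.log S) * a + 1622 * (1 + Real.log S) ^ 2 * (y / (p : ℝ) ^ 2) := by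
  have hpR : (0 : ℝ) < p := by exact_mod_cast hp
  have hB : 0 ≤ (y : ℝ) / (p : ℝ) ^ 2 := by positivity
  obtain ⟨R0, hR0⟩ : ∃ R0 : ℕ, R0 = ⌈a + y / (p : ℝ) ^ 2⌉₊ := ⟨_, rfl⟩
  have hR0a : a + y / (p : ℝ) ^ 2 ≤ R0 := by rw [hR0]; exact Nat.le_ceil _
  have hR0b : (R0 : ℝ) ≤ a + y / (p : ℝ) ^ 2 + 1 := by
    rw [hR0]; exact (Nat.ceil_lt_add_one (by positivity)).le
  have hR01 : 1 ≤ R0 := by
    have : (1 : ℝ) ≤ R0 := by linarith
    exact_mod_cast this
  have hSR : (3 : ℝ) ≤ S := by exact_mod_cast hS3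
  have hlogS : 0 ≤ Real.log S := Real.log_nonneg (by linarith)
  have hT : (((U2 x y (S / p) p).filter fun r => R0 < r).card : ℝ) ≤
      ((Nat.log 2 (S / p) + 1 : ℕ) : ℝ) * (8 * a + 810 * (y / (p : ℝ) ^ 2) * (1 + Real.log S)) := by
    apply dyad _ R0 (S / p) hR01 _ (by positivity)
    · intro n hn
      unfold U2 at hn
      rw [mem_filter, mem_filter, mem_Icc] at hn
      exact ⟨hn.2, hn.1.1.2⟩
    · intro R hR1 hR2
      have hRR : (R0 : ℝ) ≤ R := by exact_mod_cast hR1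
      refine le_trans ?_ (U2_block x y S p R a hS hS3 hp ha haA (by linarith) (by linarith) hR2)
      have : (((U2 x y (S / p) p).filter fun r => R0 < r).filter fun n => R < n ∧ n ≤ 2 * R) ⊆
          (U2 x y (S / p) p).filter fun n => R < n ∧ n ≤ 2 * R := by
        intro n hn
        rw [mem_filter, mem_filter] at hn
        rw [mem_filter]
        exact ⟨hn.1.1, hn.2⟩
      exact_mod_cast card_le_card this
  refine le_trans (gen_card y S p R0 hp (by omega)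
    (fun k => (Ioc x (x + y)).filter fun m => p * (1 + k * p) ∣ m) (E2 x y S p) _ _ ?_
    (by linarith) hT ?_ ?_) (fin_bound S a hS3 ha _ hB (S / p) R0 (Nat.div_le_self _ _) hR0b)
  · intro k hk1
    have hk0 : (0 : ℝ) < k := by exact_mod_cast hk1
    have := dvd_card x y (p * (1 + k * p)) (by positivity)
    refine this.trans ?_
    push_cast
    have h5 : (y : ℝ) / (p * (1 + k * p)) ≤ 1 / k * (y / (p : ℝ) ^ 2) := by
      rw [div_mul_div_comm, one_mul]
      apply div_le_div_of_nonneg_left (by positivity) (by positivity)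
      nlinarith
    linarith
  · intro r hr
    rw [mem_filter] at hr
    exact hr.2
  · intro m hm
    unfold E2 at hm
    rw [mem_filter, mem_Ioc] at hm
    obtain ⟨⟨hm1, hm2⟩, r, k, hr1, hk1, hkS, hmr⟩ := hm
    have hmem : m ∈ (Ioc x (x + y)).filter fun m => p * (1 + k * p) ∣ m := by
      rw [mem_filter, mem_Ioc]
      refine ⟨⟨hm1, hm2⟩, ⟨r, ?_⟩⟩
      rw [hmr]; ring
    rw [mem_union, mem_biUnion, mem_biUnion]
    rcases le_or_gt k R0 with h | h
    · left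
      exact ⟨k, by unfold Sm; rw [mem_filter, mem_Icc]; exact ⟨⟨hk1, hkS⟩, h⟩, hmem⟩
    · right
      refine ⟨k, ?_, hmem⟩
      unfold U2
      rw [mem_filter, mem_filter, mem_Icc]
      refine ⟨⟨⟨hk1, hkS⟩, r, ?_, ?_⟩, h⟩
      · rw [← hmr]; exact hm1
      · rw [← hmr]; exact hm2

end

end Pool.Agent.H69.CS
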