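import Pool.Agent.H69.CR.Bad
import Pool.Agent.H69.CS.Mid

/-!
[H69 CS BAD] Rough numbers which are not cyclic in a short interval, exponent `3/7`: the total.
-/

namespace Pool.Agent.H69.CS

open Finset Classical

open Pool.Agent.H69.CP (class_card dvd_card harm Rough)
open Pool.Agent.H69.CR (E1 E2 D L1 L2 bad_sub2)
open Pool.Agent.H69

theorem cube_sum (P : ℕ) : ∑ p ∈ Icc 1 P, 1 / ((p : ℝ) ^ (1 / 3 : ℝ)) ^ 2 ≤ 3 * (P : ℝ) ^ (1 / 3 : ℝ) := by
  induction P with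
  | zero => simp
  | succ n ih =>
    rw [← Finset.insert_Icc_right_eq_Icc_add_one (by omega), sum_insert (by simp)]
    set a := ((n + 1 : ℕ) : ℝ) ^ (1 / 3 : ℝ) with ha
    set b := (n : ℝ) ^ (1 / 3 : ℝ) with hb
    have ha3 : a ^ 3 = (n : ℝ) + 1 := by
      rw [ha, ← Real.rpow_natCast, ← Real.rpow_mul (by positivity)]
      push_cast
      norm_num
    have hb3 : b ^ 3 = (n : ℝ) := by
      rw [hb, ← Real.rpow_natCast, ← Real.rpow_mul (by positivity)]
      push_cast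
      norm_num
    have hb0 : 0 ≤ b := by positivity
    have ha0 : 0 < a := by positivity
    have hba : b ≤ a := Real.rpow_le_rpow (by positivity) (by push_cast; linarith) (by norm_num)
    have h1 : (a - b) * (a ^ 2 + a * b + b ^ 2) = 1 := by
      have : (a - b) * (a ^ 2 + a * b + b ^ 2) = a ^ 3 - b ^ 3 := by ring
      rw [this, ha3, hb3]
      ring
    have h2 : a ^ 2 + a * b + b ^ 2 ≤ 3 * a ^ 2 := by nlinarith
    have h3 : 1 ≤ (a - b) * (3 * a ^ 2) := by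
      rw [← h1]
      exact mul_le_mul_of_nonneg_left h2 (by linarith)
    have h4 : 1 / a ^ 2 ≤ 3 * (a - b) := by
      rw [div_le_iff₀ (by positivity)]
      linarith
    linarith

theorem bad_short3 (x y P S : ℕ) (w : ℝ) (hw : 1 ≤ w) (hx : 1 ≤ x) (hyx : y ≤ x) (hS : S = Nat.sqrt (2 * x))
    (hS3 : 3 ≤ S) (hP : 1 ≤ P) (hPx : P ^ 2 ≤ x) :
    (((Ioc x (x + y)).filter fun m => ¬ CY.IsCyclicNumber m ∧ Rough w m).card : ℝ) ≤
      3245 * (1 + Real.log S) ^ 2 * (2 * y / w) + P + 108 * (1 + Real.log S) * ((x : ℝ) ^ (1 / 3 : ℝ) *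
        (P : ℝ) ^ (1 / 3 : ℝ)) +
      ((2 * (x : ℝ) / P ^ 2) * (1 + Real.log (2 * x)) + (y / P) * (1 + Real.log (2 * x)) ^ 2) +
      (2 * (x : ℝ) / P ^ 2 + (y / P) * (1 + Real.log (2 * x))) := by
  have hS1 : 1 ≤ S := by omega
  have hlogS : 0 ≤ Real.log S := Real.log_nonneg (by exact_mod_cast hS1)
  set W := ⌊w⌋₊ with hW
  have hW1 : 1 ≤ W := Nat.le_floor (by exact_mod_cast hw)
  have hWR : (1 : ℝ) ≤ W := by exact_mod_cast hW1
  have hww : w ≤ 2 * W := by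
    have := Nat.lt_floor_add_one w
    rw [← hW] at this
    linarith
  have hs2 : ∑ p ∈ Ioc W P, 1 / (p : ℝ) ^ 2 ≤ 1 / (W : ℝ) := by
    rcases le_or_gt W P with h | h
    · have := sum_Ioc_inv_sq_le_sub (α := ℝ) (k := W) (n := P) (by omega) h
      have e : ∑ p ∈ Ioc W P, 1 / (p : ℝ) ^ 2 = ∑ i ∈ Ioc W P, ((i : ℝ) ^ 2)⁻¹ := by
        apply sum_congr rfl
        intro p _
        rw [one_div]
      rw [e, one_div]
      have : (0 : ℝ) ≤ (P : ℝ)⁻¹ := by positivity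
      linarith
    · rw [Finset.Ioc_eq_empty (by omega), sum_empty]
      positivity
  have hs3 : ∑ p ∈ Ioc W P, 1 / ((p : ℝ) ^ (1 / 3 : ℝ)) ^ 2 ≤ 3 * (P : ℝ) ^ (1 / 3 : ℝ) := by
    refine le_trans ?_ (cube_sum P)
    apply sum_le_sum_of_subset_of_nonneg
    · intro p hp
      rw [mem_Ioc] at hp
      rw [mem_Icc]
      omega
    · intro p _ _
      positivity
  have hcard : ((Ioc W P).card : ℝ) ≤ P := by
    rw [Nat.card_Ioc]
    exact_mod_cast Nat.sub_le P W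
  set Λ := 1 + Real.log S with hΛ
  have hΛ1 : 1 ≤ Λ := by linarith
  have hx3 : 0 ≤ (x : ℝ) ^ (1 / 3 : ℝ) := by positivity
  have hmain : ((((Ioc W P).biUnion fun p => D x y p ∪ (E1 x y S p ∪ E2 x y S p)).card : ℕ) : ℝ) ≤
      3245 * Λ ^ 2 * (2 * y / w) + P + 108 * Λ * ((x : ℝ) ^ (1 / 3 : ℝ) * (P : ℝ) ^ (1 / 3 : ℝ)) := by
    calc ((((Ioc W P).biUnion fun p => D x y p ∪ (E1 x y S p ∪ E2 x y S p)).card : ℕ) : ℝ)
        ≤ ((∑ p ∈ Ioc W P, (D x y p ∪ (E1 x y S p ∪ E2 x y S p)).card : ℕ) : ℝ) := by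
          exact_mod_cast card_biUnion_le
      _ ≤ ∑ p ∈ Ioc W P, (3245 * Λ ^ 2 * y * (1 / (p : ℝ) ^ 2) +
            (1 + 36 * Λ * (x : ℝ) ^ (1 / 3 : ℝ) * (1 / ((p : ℝ) ^ (1 / 3 : ℝ)) ^ 2))) := by
          push_cast
          refine sum_le_sum fun p hp => ?_
          rw [mem_Ioc] at hp
          have hp0 : 0 < p := by omega
          have hpR : (0 : ℝ) < p := by exact_mod_cast hp0
          have hpx : (p : ℝ) ^ 2 ≤ x := by
            have h1 : p ^ 2 ≤ x := (Nat.pow_le_pow_left hp.2 2).trans hPx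
            exact_mod_cast h1
          obtain ⟨a, ha⟩ : ∃ a : ℝ, a = ((x : ℝ) / (p : ℝ) ^ 2) ^ (1 / 3 : ℝ) := ⟨_, rfl⟩
          have hA1 : 1 ≤ (x : ℝ) / (p : ℝ) ^ 2 := by rwa [one_le_div (by positivity)]
          have ha1 : 1 ≤ a := by rw [ha]; exact Real.one_le_rpow hA1 (by norm_num)
          have ha3 : a ^ 3 = (x : ℝ) / (p : ℝ) ^ 2 := by
            rw [ha, ← Real.rpow_natCast, ← Real.rpow_mul (by positivity)]
            push_cast
            norm_num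
          have haeq : a = (x : ℝ) ^ (1 / 3 : ℝ) * (1 / ((p : ℝ) ^ (1 / 3 : ℝ)) ^ 2) := by
            rw [ha, Real.div_rpow (by positivity) (by positivity), ← Real.rpow_natCast ((p : ℝ) ^ (1 / 3 : ℝ)) 2,
              ← Real.rpow_mul (by positivity), ← Real.rpow_natCast (p : ℝ) 2, ← Real.rpow_mul (by positivity)]
            rw [mul_comm ((2 : ℕ) : ℝ), mul_one_div]
          have e1 := E1_card x y S p a hS hS3 hp0 ha1 ha3
          have e2 := E2_card x y S p a hS hS3 hp0 ha1 ha3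
          have e0 : ((D x y p).card : ℝ) ≤ y / (p : ℝ) ^ 2 + 1 := by
            have := dvd_card x y (p ^ 2) (by positivity)
            push_cast at this
            exact this
          have e3 : ((D x y p ∪ (E1 x y S p ∪ E2 x y S p)).card : ℝ) ≤
              (D x y p).card + ((E1 x y S p).card + (E2 x y S p).card) := by
            have a1 := card_union_le (D x y p) (E1 x y S p ∪ E2 x y S p)
            have a2 := card_union_le (E1 x y S p) (E2 x y S p)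
            exact_mod_cast a1.trans (Nat.add_le_add_left a2 _)
          have hB : 0 ≤ (y : ℝ) / (p : ℝ) ^ 2 := by positivity
          have e4 : (y : ℝ) / (p : ℝ) ^ 2 ≤ Λ ^ 2 * (y / (p : ℝ) ^ 2) := by
            have : 1 ≤ Λ ^ 2 := by nlinarith
            nlinarith
          have e5 : 3245 * Λ ^ 2 * y * (1 / (p : ℝ) ^ 2) +
            (1 + 36 * Λ * (x : ℝ) ^ (1 / 3 : ℝ) * (1 / ((p : ℝ) ^ (1 / 3 : ℝ)) ^ 2)) =
            3245 * (Λ ^ 2 * (y / (p : ℝ) ^ 2)) + 1 + 36 * Λ * a := by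
            rw [haeq]; ring
          rw [e5]
          rw [← hΛ] at e1 e2
          nlinarith
      _ = 3245 * Λ ^ 2 * y * (∑ p ∈ Ioc W P, 1 / (p : ℝ) ^ 2) +
          (((Ioc W P).card : ℝ) + 36 * Λ * (x : ℝ) ^ (1 / 3 : ℝ) * ∑ p ∈ Ioc W P, 1 / ((p : ℝ) ^ (1 / 3 : ℝ)) ^ 2) := by
          rw [sum_add_distrib, sum_add_distrib, ← mul_sum, ← mul_sum, sum_const, nsmul_eq_mul, mul_one]
      _ ≤ 3245 * Λ ^ 2 * y * (1 / (W : ℝ)) +
          ((P : ℝ) + 36 * Λ * (x : ℝ) ^ (1 / 3 : ℝ) * (3 * (P : ℝ) ^ (1 / 3 : ℝ))) := by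
          gcongr
      _ ≤ 3245 * Λ ^ 2 * y * (2 / w) +
          ((P : ℝ) + 36 * Λ * (x : ℝ) ^ (1 / 3 : ℝ) * (3 * (P : ℝ) ^ (1 / 3 : ℝ))) := by
          have h1 : (1 : ℝ) / W ≤ 2 / w := by
            rw [div_le_div_iff₀ (by linarith) (by linarith)]
            linarith
          gcongr
      _ = _ := by ring
  have hl1 := large_p2 x y P hP hx hyx
  have hl2 := large_sq2 x y P hP hx hyx
  have hsub := bad_sub2 x y P w hw hyx
  rw [← hS, ← hW] at hsub
  have h1 := (card_le_card hsub).trans (card_union_le _ _)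
  have h2 := card_union_le (L1 x y P) (L2 x y P)
  have h3 : (((Ioc x (x + y)).filter fun m => ¬ CY.IsCyclicNumber m ∧ Rough w m).card : ℝ) ≤
      ((((Ioc W P).biUnion fun p => D x y p ∪ (E1 x y S p ∪ E2 x y S p)).card : ℕ) : ℝ) +
      (((L1 x y P).card : ℝ) + ((L2 x y P).card : ℝ)) := by
    exact_mod_cast h1.trans (Nat.add_le_add_left h2 _)
  unfold L1 L2 at h3
  linarith

end Pool.Agent.H69.CS
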